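import Mathlib
import Pool.Agent.Helper543.RadiiLow

/-!
# Point sets in general position with few differences, explicit error term

The starting library has sets of `m` points in general position with `O_d(m ^ (1 + 2 / d))`
differences. With the explicit constant and `d` about `√(log m)` one gets
`m * exp (10 √(log m))` differences.
-/

set_option autoImplicit false

namespace Pool.Agent.Y396.RN

open Finset Pool.Agent.Helper543.Melchior Pool.Agent.Helper543.PlaneC
open Pool.Agent.Helper543.Blocks Pool.Agent.Helper543.Radii Pool.Agent.Helper543.Constr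
open Pool.Agent.Helper543.RadiiLow

/-- `exists_set` of the starting library with its constant (same proof) -/
theorem exists_setC (d : ℕ) (hd : 1 ≤ d) (m : ℕ) (hm : 1 ≤ m) :
    ∃ X : Finset Pt, X.card = m ∧ GP X ∧ ∃ D : Finset Pt,
      (D.card : ℝ) ≤ 6 ^ d * (12 * d) * (m : ℝ) ^ (1 + 2 / (d : ℝ)) ∧
        ∀ a ∈ X, ∀ b ∈ X, a - b ∈ D := by
  have hex : ∃ N : ℕ, m ≤ N ^ d := ⟨m, Nat.le_self_pow (by omega) m⟩
  classical
  set N := Nat.find hex with hN
  have hN1 : m ≤ N ^ d := Nat.find_spec hex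
  have hNpos : 1 ≤ N := by
    by_contra h0
    have : N = 0 := by omega
    rw [this, zero_pow (by omega)] at hN1
    omega
  have hN2 : (N - 1) ^ d < m := by
    by_contra hcon
    push Not at hcon
    have := Nat.find_min' hex hcon
    omega
  obtain ⟨X, hX, hgp, D, hD, hdif⟩ := exists_box d N
  obtain ⟨Y, hYX, hY⟩ := exists_subset_card_eq (hX ▸ hN1)
  refine ⟨Y, hY, ⟨fun a ha b hb c hc => hgp.1 a (hYX ha) b (hYX hb) c (hYX hc),
    fun a ha b hb c hc e he => hgp.2 a (hYX ha) b (hYX hb) c (hYX hc) e (hYX he)⟩, D, ?_,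
    fun a ha b hb => hdif a (hYX ha) b (hYX hb)⟩
  have hm0 : (1 : ℝ) ≤ m := by exact_mod_cast hm
  have hd0 : (0 : ℝ) < d := by exact_mod_cast hd
  set r : ℝ := (m : ℝ) ^ (1 / (d : ℝ)) with hr
  have hr1 : 1 ≤ r := Real.one_le_rpow hm0 (by positivity)
  have hrd : r ^ d = m := by
    rw [hr, ← Real.rpow_natCast, ← Real.rpow_mul (by positivity)]
    rw [one_div_mul_cancel hd0.ne', Real.rpow_one]
  have hNr : (N : ℝ) ≤ 2 * r := by
    have h1 : ((N - 1 : ℕ) : ℝ) < r := by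
      have h2 : ((N - 1 : ℕ) : ℝ) ^ d < r ^ d := by rw [hrd]; exact_mod_cast hN2
      exact lt_of_pow_lt_pow_left₀ d (by positivity) h2
    have h3 : ((N - 1 : ℕ) : ℝ) = N - 1 := by rw [Nat.cast_sub hNpos]; simp
    rw [h3] at h1
    linarith
  have hN1' : (1 : ℝ) ≤ N := by exact_mod_cast hNpos
  have hd1 : (1 : ℝ) ≤ d := by exact_mod_cast hd
  calc (D.card : ℝ) ≤ (((2 * N + 1) ^ d * (2 * (d * N ^ 2) + 1) : ℕ) : ℝ) := by exact_mod_cast hD
    _ = (2 * (N : ℝ) + 1) ^ d * (2 * (d * (N : ℝ) ^ 2) + 1) := by push_cast; ring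
    _ ≤ (3 * (N : ℝ)) ^ d * (3 * (d * (N : ℝ) ^ 2)) := by
        have h5 : (1 : ℝ) ≤ d * (N : ℝ) ^ 2 := by nlinarith [one_le_pow₀ hN1' (n := 2)]
        gcongr
        · linarith
        · linarith
    _ ≤ (3 * (2 * r)) ^ d * (3 * (d * (2 * r) ^ 2)) := by gcongr
    _ = 6 ^ d * (12 * d) * (r ^ d * r ^ 2) := by
        rw [show (3 * (2 * r)) = 6 * r by ring, mul_pow]; ring
    _ = 6 ^ d * (12 * d) * (m : ℝ) ^ (1 + 2 / (d : ℝ)) := by
        rw [hrd]
        congr 1
        rw [Real.rpow_add (by positivity), Real.rpow_one, hr, ← Real.rpow_natCast,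
          ← Real.rpow_mul (by positivity)]
        congr 2
        push_cast
        ring

lemma six_le_exp : (6 : ℝ) ≤ Real.exp 2 := by
  have h := Real.exp_one_gt_d9
  have e : Real.exp 2 = Real.exp 1 * Real.exp 1 := by rw [← Real.exp_add]; norm_num
  rw [e]
  nlinarith

lemma twelve_le_exp : (12 : ℝ) ≤ Real.exp 3 := by
  have h := Real.exp_one_gt_d9
  have e : Real.exp 3 = Real.exp 2 * Real.exp 1 := by rw [← Real.exp_add]; norm_num
  have := six_le_exp
  rw [e]
  nlinarith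

lemma one_le_sqrt_log {m : ℕ} (hm : 3 ≤ m) : 1 ≤ Real.sqrt (Real.log m) := by
  have h : (1 : ℝ) ≤ Real.log m := by
    rw [Real.le_log_iff_exp_le (by positivity)]
    have h1 := Real.exp_one_lt_d9
    have h2 : (3 : ℝ) ≤ m := by exact_mod_cast hm
    linarith
  rw [← Real.sqrt_one]
  exact Real.sqrt_le_sqrt h

/-- the choice of the dimension -/
lemma bound_opt {m : ℕ} (hm : 3 ≤ m) : ∃ d : ℕ, 1 ≤ d ∧
    (6 : ℝ) ^ d * (12 * d) * (m : ℝ) ^ (1 + 2 / (d : ℝ)) ≤
      m * Real.exp (10 * Real.sqrt (Real.log m)) := by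
  set s : ℝ := Real.sqrt (Real.log m) with hs
  have hs1 : 1 ≤ s := one_le_sqrt_log hm
  have hm0 : (0 : ℝ) < m := by exact_mod_cast (by omega : 0 < m)
  have hL : Real.log m = s ^ 2 := by
    rw [hs, Real.sq_sqrt]
    exact Real.log_nonneg (by exact_mod_cast (by omega : 1 ≤ m))
  refine ⟨⌈s⌉₊, Nat.one_le_iff_ne_zero.2 (by
    intro h
    rw [Nat.ceil_eq_zero] at h
    linarith), ?_⟩
  set d : ℕ := ⌈s⌉₊ with hd
  have hd1 : s ≤ d := Nat.le_ceil s
  have hd2 : (d : ℝ) ≤ s + 1 := (Nat.ceil_lt_add_one (by linarith)).le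
  have hd0 : (0 : ℝ) < d := by linarith
  have h1 : (6 : ℝ) ^ d ≤ Real.exp (2 * s + 2) := by
    calc (6 : ℝ) ^ d ≤ (Real.exp 2) ^ d := pow_le_pow_left₀ (by norm_num) six_le_exp d
      _ = Real.exp (d * 2) := by rw [← Real.exp_nat_mul]
      _ ≤ Real.exp (2 * s + 2) := Real.exp_le_exp.2 (by linarith)
  have h2 : (12 : ℝ) * d ≤ Real.exp (3 + s) := by
    rw [Real.exp_add]
    have h3 : (d : ℝ) ≤ Real.exp s := hd2.trans (Real.add_one_le_exp s)
    exact mul_le_mul twelve_le_exp h3 hd0.le (Real.exp_pos _).le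
  have h3 : (m : ℝ) ^ (1 + 2 / (d : ℝ)) ≤ m * Real.exp (2 * s) := by
    rw [Real.rpow_add hm0, Real.rpow_one, Real.rpow_def_of_pos hm0, hL]
    apply mul_le_mul_of_nonneg_left _ hm0.le
    apply Real.exp_le_exp.2
    rw [show s ^ 2 * (2 / (d : ℝ)) = 2 * s * (s / d) by ring]
    have : s / d ≤ 1 := (div_le_one hd0).2 hd1
    nlinarith
  calc (6 : ℝ) ^ d * (12 * d) * (m : ℝ) ^ (1 + 2 / (d : ℝ))
      ≤ Real.exp (2 * s + 2) * Real.exp (3 + s) * (m * Real.exp (2 * s)) := by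
        gcongr
    _ = m * Real.exp (2 * s + 2 + (3 + s) + 2 * s) := by
        rw [Real.exp_add (2 * s + 2 + (3 + s)), Real.exp_add (2 * s + 2)]
        ring
    _ ≤ m * Real.exp (10 * s) := by
        gcongr
        linarith

/-- `m` points in general position with at most `m * exp (10 √(log m))` differences -/
theorem exists_planeC (m : ℕ) (hm : 3 ≤ m) :
    ∃ X : Finset Plane, X.card = m ∧ GenPos X ∧ ∃ D : Finset Plane,
      (D.card : ℝ) ≤ m * Real.exp (10 * Real.sqrt (Real.log m)) ∧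
        ∀ a ∈ X, ∀ b ∈ X, a - b ∈ D := by
  classical
  obtain ⟨d, hd, hbd⟩ := bound_opt hm
  obtain ⟨X, hX, hgp, D, hD, hdif⟩ := exists_setC d hd m (by omega)
  refine ⟨X.image psi, ?_, genPos_of_GP hgp, D.image psi, ?_, ?_⟩
  · rw [card_image_of_injective _ psi_inj, hX]
  · rw [card_image_of_injective _ psi_inj]; exact hD.trans hbd
  · intro a ha b hb
    rw [mem_image] at ha hb
    obtain ⟨x, hx, rfl⟩ := ha
    obtain ⟨y, hy, rfl⟩ := hb
    rw [← psi_sub]
    exact mem_image_of_mem _ (hdif x hx y hy)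

/-- few circumradii -/
theorem few_radiiC (n : ℕ) (hn : 3 ≤ n) :
    ∃ P : Finset Plane, P.card = n ∧ GenPos P ∧ (radii P).Finite ∧
      ((radii P).ncard : ℝ) ≤ (n : ℝ) ^ 2 * Real.exp (20 * Real.sqrt (Real.log n)) := by
  classical
  obtain ⟨P, hPc, hgp, D, hD, hdif⟩ := exists_planeC n hn
  have hsub := radii_subset hdif
  refine ⟨P, hPc, hgp, (Finset.finite_toSet _).subset hsub, ?_⟩
  have h1 : (radii P).ncard ≤ D.card * D.card := by
    calc (radii P).ncard ≤ (((D ×ˢ D).image rad : Finset ℝ) : Set ℝ).ncard :=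
          Set.ncard_le_ncard hsub (Finset.finite_toSet _)
      _ = ((D ×ˢ D).image rad).card := Set.ncard_coe_finset _
      _ ≤ (D ×ˢ D).card := card_image_le
      _ = _ := card_product _ _
  set s : ℝ := Real.sqrt (Real.log n) with hs
  calc ((radii P).ncard : ℝ) ≤ (D.card : ℝ) * D.card := by exact_mod_cast h1
    _ ≤ (n * Real.exp (10 * s)) * (n * Real.exp (10 * s)) := by gcongr
    _ = (n : ℝ) ^ 2 * (Real.exp (10 * s) * Real.exp (10 * s)) := by ring
    _ = (n : ℝ) ^ 2 * Real.exp (20 * s) := by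
        rw [← Real.exp_add]; congr 2; ring

lemma genPos_empty : GenPos (∅ : Finset Plane) :=
  ⟨fun T hT hTc => by
      have := card_le_card hT
      rw [card_empty] at this; omega,
    fun T hT hTc => by
      have := card_le_card hT
      rw [card_empty] at this; omega⟩

lemma le_nk {k : ℕ} (hk : 3 ≤ k) : k ≤ nk k := by
  have hX : ∃ X : Finset Plane, X.card = nk k ∧ GenPos X := by
    rcases Nat.eq_zero_or_pos (nk k) with h0 | h0
    · exact ⟨∅, by rw [h0]; rfl, genPos_empty⟩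
    · obtain ⟨K, hK, h⟩ := exists_plane 1 le_rfl
      obtain ⟨X, h1, h2, -⟩ := h (nk k) h0
      exact ⟨X, h1, h2⟩
  obtain ⟨X, hXc, hgp⟩ := hX
  obtain ⟨Y, hYX, hYc, -⟩ := nk_spec k (by omega) X hXc hgp
  have := card_le_card hYX
  omega

/-- lower bound for the Ramsey-type number -/
theorem nk_geC (k : ℕ) (hk : 3 ≤ k) :
    (k : ℝ) ^ 2 * Real.exp (-(29 * Real.sqrt (Real.log k))) ≤ nk k := by
  classical
  have hm3 : 3 ≤ nk k := hk.trans (le_nk hk)
  obtain ⟨X, hXc, hgp, D, hD, hdif⟩ := exists_planeC (nk k) hm3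
  obtain ⟨Y, hYX, hYc, hY⟩ := nk_spec k (by omega) X hXc hgp
  have h1 := offDiag_le hgp hYX hY hdif
  rw [offDiag_card, hYc] at h1
  have h2 : k * k ≤ 2 * (k * k - k) := by
    have h3 : 2 * k ≤ k * k := Nat.mul_le_mul_right k (by omega)
    omega
  have h3 : k ^ 2 ≤ 2 * D.card := by rw [sq]; omega
  have h4 : (k : ℝ) ^ 2 ≤ 2 * (D.card : ℝ) := by exact_mod_cast h3
  have hk0 : (0 : ℝ) < k := by exact_mod_cast (by omega : 0 < k)
  have hk3 : (3 : ℝ) ≤ k := by exact_mod_cast hk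
  have hm0 : (0 : ℝ) < nk k := by exact_mod_cast (by omega : 0 < nk k)
  set s : ℝ := Real.sqrt (Real.log k) with hs
  have hs1 : 1 ≤ s := one_le_sqrt_log hk
  have hlogk : 0 ≤ Real.log k := Real.log_nonneg (by linarith)
  -- the logarithm of `nk k`
  have h5 : Real.log (nk k) ≤ 8 * Real.log k := by
    have h6 : (nk k : ℝ) ≤ (k : ℝ) ^ 8 := by
      have h7 : (nk k : ℝ) ≤ 10 * (k : ℝ) ^ 5 := by exact_mod_cast nk_le k (by omega)
      have h8 : (10 : ℝ) ≤ (k : ℝ) ^ 3 := by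
        calc (10 : ℝ) ≤ 3 ^ 3 := by norm_num
          _ ≤ (k : ℝ) ^ 3 := by gcongr
      calc (nk k : ℝ) ≤ 10 * (k : ℝ) ^ 5 := h7
        _ ≤ (k : ℝ) ^ 3 * (k : ℝ) ^ 5 := by gcongr
        _ = (k : ℝ) ^ 8 := by ring
    calc Real.log (nk k) ≤ Real.log ((k : ℝ) ^ 8) := Real.log_le_log hm0 h6
      _ = 8 * Real.log k := by rw [Real.log_pow]; norm_num
  have h9 : Real.sqrt (Real.log (nk k)) ≤ 2.83 * s := by
    calc Real.sqrt (Real.log (nk k)) ≤ Real.sqrt ((2.83 * s) ^ 2) := by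
          apply Real.sqrt_le_sqrt
          rw [mul_pow, hs, Real.sq_sqrt hlogk]
          nlinarith
      _ = 2.83 * s := Real.sqrt_sq (by positivity)
  have h10 : (2 : ℝ) ≤ Real.exp (0.7 * s) := by
    have h11 : Real.log 2 ≤ 0.7 * s := by
      have := Real.log_two_lt_d9
      nlinarith
    calc (2 : ℝ) = Real.exp (Real.log 2) := (Real.exp_log (by norm_num)).symm
      _ ≤ _ := Real.exp_le_exp.2 h11
  have h12 : (k : ℝ) ^ 2 ≤ nk k * Real.exp (29 * s) := by
    calc (k : ℝ) ^ 2 ≤ 2 * (D.card : ℝ) := h4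
      _ ≤ Real.exp (0.7 * s) * (nk k * Real.exp (10 * Real.sqrt (Real.log (nk k)))) := by gcongr
      _ ≤ Real.exp (0.7 * s) * (nk k * Real.exp (10 * (2.83 * s))) := by gcongr
      _ = nk k * Real.exp (0.7 * s + 10 * (2.83 * s)) := by rw [Real.exp_add]; ring
      _ ≤ nk k * Real.exp (29 * s) := by
          gcongr
          linarith
  rw [Real.exp_neg, ← div_eq_mul_inv, div_le_iff₀ (Real.exp_pos _)]
  exact h12

end Pool.Agent.Y396.RN
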